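import Mathlib

/-! Maximal Carleman operators and a block-diagonal example -/

set_option autoImplicit false

open MeasureTheory Filter Topology
open scoped ENNReal

namespace Pool.Agent.Q191.Carl

variable {α : Type} [MeasurableSpace α] {μ : Measure α} {k : α → α → ℂ}

/-- the integral transform with kernel `k` -/
noncomputable def tr (μ : Measure α) (k : α → α → ℂ) (f : Lp ℂ 2 μ) (x : α) : ℂ :=
  ∫ y, k x y * f y ∂μ

lemma integrable_ker {x : α} (hx : MemLp (k x) 2 μ) (f : Lp ℂ 2 μ) :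
    Integrable (fun y => k x y * f y) μ := by
  have := hx.integrable_mul (Lp.memLp f)
  exact this

lemma tr_add (hk : ∀ᵐ x ∂μ, MemLp (k x) 2 μ) (f g : Lp ℂ 2 μ) :
    tr μ k (f + g) =ᵐ[μ] fun x => tr μ k f x + tr μ k g x := by
  filter_upwards [hk] with x hx
  rw [tr, tr, tr, ← integral_add (integrable_ker hx f) (integrable_ker hx g)]
  refine integral_congr_ae ?_
  filter_upwards [Lp.coeFn_add f g] with y hy
  rw [hy, Pi.add_apply, mul_add]

lemma tr_smul (c : ℂ) (f : Lp ℂ 2 μ) : tr μ k (c • f) = fun x => c * tr μ k f x := by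
  funext x
  rw [tr, tr, ← integral_const_mul]
  refine integral_congr_ae ?_
  filter_upwards [Lp.coeFn_smul c f] with y hy
  rw [hy, Pi.smul_apply, smul_eq_mul]
  ring

lemma tr_zero : tr μ k 0 = fun _ => 0 := by
  have := tr_smul (μ := μ) (k := k) (0 : ℂ) 0
  rw [zero_smul] at this
  rw [this]
  funext x
  ring

/-- the maximal operator with kernel `k` -/
noncomputable def maxOp (hk : ∀ᵐ x ∂μ, MemLp (k x) 2 μ) : Lp ℂ 2 μ →ₗ.[ℂ] Lp ℂ 2 μ where
  domain :=
    { carrier := {f | MemLp (tr μ k f) 2 μ}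
      add_mem' := fun {f g} hf hg => (memLp_congr_ae (tr_add hk f g)).2 (hf.add hg)
      zero_mem' := by
        show MemLp (tr μ k 0) 2 μ
        rw [tr_zero]
        exact MemLp.zero'
      smul_mem' := fun c f hf => by
        show MemLp (tr μ k (c • f)) 2 μ
        rw [tr_smul]
        exact hf.const_mul c }
  toFun :=
    { toFun := fun f => MemLp.toLp (tr μ k f.1) f.2
      map_add' := fun f g => by
        have h1 := tr_add hk f.1 g.1
        have h2 : MemLp (fun x => tr μ k f.1 x + tr μ k g.1 x) 2 μ := f.2.add g.2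
        rw [show MemLp.toLp (tr μ k (f + g).1) (f + g).2 = MemLp.toLp _ h2 from
          (MemLp.toLp_eq_toLp_iff _ _).2 h1]
        exact MemLp.toLp_add f.2 g.2
      map_smul' := fun c f => by
        have h1 : tr μ k (c • f).1 = fun x => c * tr μ k f.1 x := tr_smul c f.1
        have h2 : MemLp (fun x => c * tr μ k f.1 x) 2 μ := f.2.const_mul c
        rw [show MemLp.toLp (tr μ k (c • f).1) (c • f).2 = MemLp.toLp _ h2 from
          (MemLp.toLp_eq_toLp_iff _ _).2 (by rw [h1])]
        exact MemLp.toLp_const_smul c f.2 }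

lemma mem_maxOp (hk : ∀ᵐ x ∂μ, MemLp (k x) 2 μ) (f : Lp ℂ 2 μ) :
    f ∈ (maxOp hk).domain ↔ MemLp (tr μ k f) 2 μ := Iff.rfl

lemma maxOp_apply (hk : ∀ᵐ x ∂μ, MemLp (k x) 2 μ) (f : (maxOp hk).domain) :
    (maxOp hk f : Lp ℂ 2 μ) =ᵐ[μ] tr μ k f.1 := MemLp.coeFn_toLp f.2

lemma tendsto_tr {x : α} (hx : MemLp (k x) 2 μ) {u : ℕ → Lp ℂ 2 μ} {f : Lp ℂ 2 μ}
    (hu : Tendsto u atTop (𝓝 f)) : Tendsto (fun n => tr μ k (u n) x) atTop (𝓝 (tr μ k f x)) := by
  have hx' : MemLp (fun y => star (k x y)) 2 μ := hx.star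
  have h1 : ∀ g : Lp ℂ 2 μ, tr μ k g x = inner ℂ (hx'.toLp _) g := by
    intro g
    rw [L2.inner_def, tr]
    refine integral_congr_ae ?_
    filter_upwards [MemLp.coeFn_toLp hx'] with y hy
    rw [hy]
    simp [mul_comm]
  simp only [h1]
  exact ((continuous_const.inner continuous_id).tendsto f).comp hu

lemma maxOp_isClosed (hk : ∀ᵐ x ∂μ, MemLp (k x) 2 μ) : (maxOp hk).IsClosed := by
  unfold LinearPMap.IsClosed
  rw [← isSeqClosed_iff_isClosed]
  rintro w ⟨f, g⟩ hw hlim
  have h1 : ∀ n, ∃ h : (w n).1 ∈ (maxOp hk).domain, maxOp hk ⟨(w n).1, h⟩ = (w n).2 := by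
    intro n
    have := hw n
    rw [SetLike.mem_coe, LinearPMap.mem_graph_iff] at this
    obtain ⟨y, hy1, hy2⟩ := this
    refine ⟨hy1 ▸ y.2, ?_⟩
    rw [← hy2]
    congr 1
    exact Subtype.ext hy1.symm
  have hf : Tendsto (fun n => (w n).1) atTop (𝓝 f) := (continuous_fst.tendsto _).comp hlim
  have hg : Tendsto (fun n => (w n).2) atTop (𝓝 g) := (continuous_snd.tendsto _).comp hlim
  obtain ⟨ns, hns, hae⟩ := (tendstoInMeasure_of_tendsto_Lp hg).exists_seq_tendsto_ae
  have h2 : ∀ᵐ x ∂μ, ∀ n, ((w n).2 : α → ℂ) x = tr μ k (w n).1 x := by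
    rw [ae_all_iff]
    intro n
    obtain ⟨h, hh⟩ := h1 n
    have := maxOp_apply hk ⟨(w n).1, h⟩
    rw [hh] at this
    exact this
  have h3 : (g : α → ℂ) =ᵐ[μ] tr μ k f := by
    filter_upwards [hae, h2, hk] with x hx1 hx2 hx3
    have h4 : Tendsto (fun n => tr μ k (w (ns n)).1 x) atTop (𝓝 (tr μ k f x)) :=
      (tendsto_tr hx3 hf).comp hns.tendsto_atTop
    refine tendsto_nhds_unique hx1 (h4.congr fun n => ?_)
    rw [hx2]
  have h5 : f ∈ (maxOp hk).domain := (memLp_congr_ae h3).1 (Lp.memLp g)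
  rw [SetLike.mem_coe, LinearPMap.mem_graph_iff]
  refine ⟨⟨f, h5⟩, rfl, ?_⟩
  apply Lp.ext
  exact (maxOp_apply hk ⟨f, h5⟩).trans h3.symm

/-! ### The block-diagonal example -/

section Example

variable (U : Set α) (N : α → ℕ)

/-- the pieces -/
def J (n : ℕ) : Set α := U ∩ N ⁻¹' {n}

variable {U N} (hU : MeasurableSet U) (hμU : μ U ≠ ∞) (hN : Measurable N)
  (hpos : ∀ n, μ (J U N n) ≠ 0)

include hU hN in
lemma hJ (n : ℕ) : MeasurableSet (J U N n) := hU.inter (hN (measurableSet_singleton n))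

include hμU in
lemma hμJ (n : ℕ) : μ (J U N n) ≠ ∞ := measure_ne_top_of_subset Set.inter_subset_left hμU

variable (μ U N) in
/-- the measures of the pieces -/
noncomputable def m (n : ℕ) : ℝ := μ.real (J U N n)

include hμU hpos in
lemma m_pos (n : ℕ) : 0 < m μ U N n :=
  ENNReal.toReal_pos (hpos n) (hμJ hμU n)

variable (μ U N) in
open Classical in
/-- the kernel `m_n^(-3/2)` on `J_n × J_n` -/
noncomputable def ker (x y : α) : ℂ :=
  if x ∈ U ∧ y ∈ U ∧ N x = N y then (((m μ U N (N x)) * √ (m μ U N (N x)))⁻¹ : ℝ) else 0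

lemma ker_of_mem {x : α} (hx : x ∈ U) : ker μ U N x =
    (J U N (N x)).indicator fun _ => ((((m μ U N (N x)) * √ (m μ U N (N x)))⁻¹ : ℝ) : ℂ) := by
  classical
  funext y
  unfold ker
  by_cases hy : y ∈ J U N (N x)
  · rw [Set.indicator_of_mem hy, if_pos ⟨hx, hy.1, hy.2.symm⟩]
  · rw [Set.indicator_of_notMem hy, if_neg]
    rintro ⟨-, h2, h3⟩
    exact hy ⟨h2, h3.symm⟩

lemma ker_of_notMem {x : α} (hx : x ∉ U) : ker μ U N x = fun _ => 0 := by
  classical
  funext y
  unfold ker
  rw [if_neg]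
  rintro ⟨h1, -⟩
  exact hx h1

include hU hμU hN in
lemma ker_memLp (x : α) : MemLp (ker μ U N x) 2 μ := by
  by_cases hx : x ∈ U
  · rw [ker_of_mem hx]
    exact memLp_indicator_const 2 (hJ hU hN _) _ (Or.inr (hμJ hμU _))
  · rw [ker_of_notMem hx]
    exact MemLp.zero'

include hU hN in
lemma ker_measurable : Measurable (Function.uncurry (ker μ U N)) := by
  classical
  unfold ker Function.uncurry
  refine Measurable.ite ?_ ?_ measurable_const
  · refine (measurable_fst hU).inter ((measurable_snd hU).inter ?_)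
    exact measurableSet_eq_fun (hN.comp measurable_fst) (hN.comp measurable_snd)
  · have h1 : Measurable fun n : ℕ => ((((m μ U N n) * √ (m μ U N n))⁻¹ : ℝ) : ℂ) :=
      measurable_of_countable _
    exact h1.comp (hN.comp measurable_fst)

include hU hN in
/-- the transform of `f` -/
lemma tr_ker {x : α} (hx : x ∈ U) (f : Lp ℂ 2 μ) : tr μ (ker μ U N) f x =
    ((((m μ U N (N x)) * √ (m μ U N (N x)))⁻¹ : ℝ) : ℂ) * ∫ y in J U N (N x), f y ∂μ := by
  rw [tr, ker_of_mem hx, ← integral_indicator (hJ hU hN _), ← integral_const_mul]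
  congr 1
  funext y
  by_cases hy : y ∈ J U N (N x)
  · rw [Set.indicator_of_mem hy, Set.indicator_of_mem hy]
  · rw [Set.indicator_of_notMem hy, Set.indicator_of_notMem hy]
    ring

lemma tr_ker_notMem {x : α} (hx : x ∉ U) (f : Lp ℂ 2 μ) : tr μ (ker μ U N) f x = 0 := by
  rw [tr, ker_of_notMem hx]
  simp

/-- the normalized indicators -/
noncomputable def ind (hU : MeasurableSet U) (hμU : μ U ≠ ∞) (hN : Measurable N) (n : ℕ) :
    Lp ℂ 2 μ :=
  indicatorConstLp 2 (hJ hU hN n) (hμJ hμU n) (((√ (m μ U N n))⁻¹ : ℝ) : ℂ)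

include hpos in
lemma orthonormal_ind : Orthonormal ℂ (ind (μ := μ) hU hμU hN) := by
  rw [orthonormal_iff_ite]
  intro i j
  unfold ind
  rw [L2.inner_indicatorConstLp_indicatorConstLp (hJ hU hN i) (hJ hU hN j) (hμJ hμU i)
    (hμJ hμU j)]
  split_ifs with h
  · subst h
    rw [Set.inter_self]
    have hm := m_pos hμU hpos i
    have h2 : √ (m μ U N i) * √ (m μ U N i) = m μ U N i := Real.mul_self_sqrt hm.le
    have h3 : √ (m μ U N i) ≠ 0 := (Real.sqrt_pos.2 hm).ne'
    show (m μ U N i) • _ = _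
    rw [RCLike.inner_apply, Complex.conj_ofReal, ← Complex.ofReal_mul, Complex.real_smul,
      ← Complex.ofReal_mul]
    have : m μ U N i * ((√ (m μ U N i))⁻¹ * (√ (m μ U N i))⁻¹) = 1 := by
      rw [← mul_inv, h2]
      exact mul_inv_cancel₀ hm.ne'
    rw [this]
    simp
  · have : J U N i ∩ J U N j = ∅ := by
      ext x
      simp only [Set.mem_inter_iff, Set.mem_empty_iff_false, iff_false]
      rintro ⟨h1, h2⟩
      exact h (h1.2.symm.trans h2.2)
    rw [this]
    simp

/-- the operator `B` -/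
noncomputable def opB (hU : MeasurableSet U) (hμU : μ U ≠ ∞) (hN : Measurable N) :
    Lp ℂ 2 μ →ₗ.[ℂ] Lp ℂ 2 μ :=
  maxOp (k := ker μ U N) (Eventually.of_forall (ker_memLp hU hμU hN))

lemma tr_ind (hpos : ∀ n, μ (J U N n) ≠ 0) (n : ℕ) :
    tr μ (ker μ U N) (ind (μ := μ) hU hμU hN n) =
      (J U N n).indicator fun _ => (((m μ U N n)⁻¹ : ℝ) : ℂ) := by
  funext x
  by_cases hx : x ∈ U
  · rw [tr_ker hU hN hx]
    unfold ind
    rw [setIntegral_indicatorConstLp (hJ hU hN _)]
    by_cases hxn : N x = n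
    · have hxJ : x ∈ J U N n := ⟨hx, hxn⟩
      rw [Set.indicator_of_mem hxJ, hxn, Set.inter_self]
      have hm := m_pos hμU hpos n
      have h2 : √ (m μ U N n) * √ (m μ U N n) = m μ U N n := Real.mul_self_sqrt hm.le
      have h3 : √ (m μ U N n) ≠ 0 := (Real.sqrt_pos.2 hm).ne'
      show _ * ((m μ U N n) • _) = _
      rw [Complex.real_smul, ← Complex.ofReal_mul, ← Complex.ofReal_mul]
      congr 1
      rw [mul_inv]
      field_simp
      rw [sq, h2]
    · have hxJ : x ∉ J U N n := fun h => hxn h.2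
      rw [Set.indicator_of_notMem hxJ]
      have : J U N n ∩ J U N (N x) = ∅ := by
        ext y
        simp only [Set.mem_inter_iff, Set.mem_empty_iff_false, iff_false]
        rintro ⟨h1, h2⟩
        exact hxn (h2.2.symm.trans h1.2)
      rw [this]
      simp
  · rw [tr_ker_notMem hx, Set.indicator_of_notMem]
    exact fun h => hx h.1

lemma ind_mem (hpos : ∀ n, μ (J U N n) ≠ 0) (n : ℕ) :
    ind (μ := μ) hU hμU hN n ∈ (opB (μ := μ) hU hμU hN).domain := by
  show MemLp (tr μ (ker μ U N) (ind (μ := μ) hU hμU hN n)) 2 μ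
  rw [tr_ind hU hμU hN hpos]
  exact memLp_indicator_const 2 (hJ hU hN _) _ (Or.inr (hμJ hμU _))

lemma opB_ind (hpos : ∀ n, μ (J U N n) ≠ 0) (n : ℕ) :
    opB (μ := μ) hU hμU hN ⟨_, ind_mem hU hμU hN hpos n⟩ =
      indicatorConstLp 2 (hJ hU hN n) (hμJ hμU n) (((m μ U N n)⁻¹ : ℝ) : ℂ) := by
  apply Lp.ext
  refine (maxOp_apply _ _).trans ?_
  rw [tr_ind hU hμU hN hpos]
  exact indicatorConstLp_coeFn.symm

/-- the function `1_U` -/
noncomputable def one (hU : MeasurableSet U) (hμU : μ U ≠ ∞) : Lp ℂ 2 μ :=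
  indicatorConstLp 2 hU hμU (1 : ℂ)

/-- the rank one operator `h ↦ (∫_U h) 1_U` -/
noncomputable def opA (hU : MeasurableSet U) (hμU : μ U ≠ ∞) : Lp ℂ 2 μ →L[ℂ] Lp ℂ 2 μ :=
  (innerSL ℂ (one hU hμU)).smulRight (one hU hμU)

lemma opA_apply (h : Lp ℂ 2 μ) : opA hU hμU h = (∫ y in U, h y ∂μ) • one hU hμU := by
  show (inner ℂ (one hU hμU) h : ℂ) • (one hU hμU : Lp ℂ 2 μ) = _
  unfold one
  rw [L2.inner_indicatorConstLp_one]

lemma opA_opB_ind (hpos : ∀ n, μ (J U N n) ≠ 0) (n : ℕ) :
    opA hU hμU (opB (μ := μ) hU hμU hN ⟨_, ind_mem hU hμU hN hpos n⟩) = one hU hμU := by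
  rw [opA_apply, opB_ind hU hμU hN hpos, setIntegral_indicatorConstLp hU]
  have h1 : J U N n ∩ U = J U N n := Set.inter_eq_left.2 Set.inter_subset_left
  rw [h1]
  show ((m μ U N n) • _) • _ = _
  rw [Complex.real_smul, ← Complex.ofReal_mul,
    mul_inv_cancel₀ (m_pos hμU hpos n).ne', Complex.ofReal_one, one_smul]

/-- the product is not given by a kernel -/
lemma not_represented (hpos : ∀ n, μ (J U N n) ≠ 0) (k : α → α → ℂ)
    (hk : ∀ᵐ x ∂μ, MemLp (k x) 2 μ)
    (hrep : ∀ n, (one hU hμU : α → ℂ) =ᵐ[μ] tr μ k (ind (μ := μ) hU hμU hN n)) : False := by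
  have h1 : ∀ᵐ x ∂μ, (one hU hμU : α → ℂ) x = 0 := by
    filter_upwards [hk, ae_all_iff.2 hrep] with x hx1 hx2
    have hx' : MemLp (fun y => star (k x y)) 2 μ := hx1.star
    have h2 : ∀ g : Lp ℂ 2 μ, tr μ k g x = inner ℂ (hx'.toLp _) g := by
      intro g
      rw [L2.inner_def, tr]
      refine integral_congr_ae ?_
      filter_upwards [MemLp.coeFn_toLp hx'] with y hy
      rw [hy]
      simp [mul_comm]
    have h3 := (orthonormal_ind (μ := μ) hU hμU hN hpos).inner_products_summable (x := hx'.toLp _)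
    have h4 : ∀ n, ‖inner ℂ (ind (μ := μ) hU hμU hN n) (hx'.toLp _)‖ ^ 2 =
        ‖(one hU hμU : α → ℂ) x‖ ^ 2 := by
      intro n
      rw [norm_inner_symm, ← h2, ← hx2 n]
    simp only [h4] at h3
    rw [summable_const_iff] at h3
    have h5 := pow_eq_zero_iff (two_ne_zero) |>.1 h3
    exact norm_eq_zero.1 h5
  have h2 : ∀ᵐ x ∂μ, x ∉ U := by
    filter_upwards [h1, indicatorConstLp_coeFn (p := 2) (hs := hU) (hμs := hμU) (c := (1 : ℂ))]
      with x hx1 hx2 hxU
    unfold one at hx1
    rw [hx1, Set.indicator_of_mem hxU] at hx2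
    exact zero_ne_one hx2
  have h3 : μ U = 0 := by
    rw [ae_iff] at h2
    simpa using h2
  have h4 : μ (J U N 0) = 0 := measure_mono_null Set.inter_subset_left h3
  exact hpos 0 h4

/-- the domain of `B` is dense -/
lemma dense_domain : Dense ((opB (μ := μ) hU hμU hN).domain : Set (Lp ℂ 2 μ)) := by
  have key : ((opB (μ := μ) hU hμU hN).domain)ᗮ = ⊥ := by
    rw [Submodule.eq_bot_iff]
    intro h hh
    -- the cut-offs
    let S : ℕ → Set α := fun n => (U ∩ N ⁻¹' (Set.Ici n))ᶜ
    have hS : ∀ n, MeasurableSet (S n) := fun n =>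
      (hU.inter (hN measurableSet_Ici)).compl
    have hmem : ∀ n, MemLp ((S n).indicator (h : α → ℂ)) 2 μ := fun n =>
      (Lp.memLp h).indicator (hS n)
    have hdom : ∀ n, (hmem n).toLp _ ∈ (opB (μ := μ) hU hμU hN).domain := by
      intro n
      show MemLp (tr μ (ker μ U N) ((hmem n).toLp _)) 2 μ
      let G : ℕ → ℂ := fun i => if i < n then
        ((((m μ U N i) * √ (m μ U N i))⁻¹ : ℝ) : ℂ) * ∫ y in J U N i, h y ∂μ else 0
      have hG : tr μ (ker μ U N) ((hmem n).toLp _) = U.indicator fun x => G (N x) := by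
        funext x
        by_cases hx : x ∈ U
        · rw [Set.indicator_of_mem hx, tr_ker hU hN hx]
          have h1 : ∫ y in J U N (N x), ((hmem n).toLp _ : Lp ℂ 2 μ) y ∂μ =
              ∫ y in J U N (N x), (S n).indicator (h : α → ℂ) y ∂μ :=
            setIntegral_congr_ae (hJ hU hN _) (by
              filter_upwards [MemLp.coeFn_toLp (hmem n)] with y hy _
              exact hy)
          rw [h1]
          by_cases hxn : N x < n
          · simp only [G, if_pos hxn]
            congr 1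
            refine setIntegral_congr_fun (hJ hU hN _) fun y hy => ?_
            have : y ∈ S n := fun h3 => by
              have h4 : N y = N x := hy.2
              have h5 : n ≤ N y := h3.2
              omega
            simp only [Set.indicator_of_mem this]
          · simp only [G, if_neg hxn]
            have : ∫ y in J U N (N x), (S n).indicator (h : α → ℂ) y ∂μ = 0 := by
              rw [setIntegral_congr_fun (g := fun _ => (0 : ℂ)) (hJ hU hN _) fun y hy => ?_]
              · simp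
              · have h6 : y ∉ S n := fun h3 => h3 ⟨hy.1, by
                  have h4 : N y = N x := hy.2
                  show n ≤ N y
                  omega⟩
                simp only [Set.indicator_of_notMem h6]
            rw [this, mul_zero]
        · rw [Set.indicator_of_notMem hx, tr_ker_notMem hx]
      rw [hG]
      have hGm : Measurable fun x => G (N x) := (measurable_of_countable G).comp hN
      have hC : ∀ i, ‖G i‖ ≤ ∑ j ∈ Finset.range n, ‖G j‖ := by
        intro i
        by_cases hi : i < n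
        · exact Finset.single_le_sum (f := fun j => ‖G j‖) (fun j _ => norm_nonneg _)
            (Finset.mem_range.2 hi)
        · have : G i = 0 := if_neg hi
          rw [this, norm_zero]
          exact Finset.sum_nonneg fun j _ => norm_nonneg _
      refine (memLp_indicator_const 2 hU (((∑ j ∈ Finset.range n, ‖G j‖ : ℝ)) : ℂ)
        (Or.inr hμU)).mono (hGm.indicator hU).aestronglyMeasurable (Eventually.of_forall fun x => ?_)
      by_cases hx : x ∈ U
      · rw [Set.indicator_of_mem hx, Set.indicator_of_mem hx, Complex.norm_real]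
        exact (hC _).trans (le_abs_self _)
      · rw [Set.indicator_of_notMem hx, norm_zero]
        exact norm_nonneg _
    have hzero : ∀ n, (hmem n).toLp _ = 0 := by
      intro n
      have h1 : inner ℂ ((hmem n).toLp _) h = 0 := (Submodule.mem_orthogonal _ _).1 hh _ (hdom n)
      have h2 : inner ℂ ((hmem n).toLp _) ((hmem n).toLp _) = inner ℂ ((hmem n).toLp _) h := by
        rw [L2.inner_def, L2.inner_def]
        refine integral_congr_ae ?_
        filter_upwards [MemLp.coeFn_toLp (hmem n)] with y hy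
        rw [hy]
        by_cases hyS : y ∈ S n
        · rw [Set.indicator_of_mem hyS]
        · rw [Set.indicator_of_notMem hyS, inner_zero_left, inner_zero_left]
      rw [h1] at h2
      exact inner_self_eq_zero.1 h2
    have hae : ∀ᵐ x ∂μ, ∀ n, (S n).indicator (h : α → ℂ) x = 0 := by
      rw [ae_all_iff]
      intro n
      have h1 := MemLp.coeFn_toLp (hmem n)
      rw [hzero n] at h1
      filter_upwards [h1, Lp.coeFn_zero ℂ 2 μ] with x hx1 hx2
      rw [← hx1, hx2]
      rfl
    apply Lp.ext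
    filter_upwards [hae, Lp.coeFn_zero ℂ 2 μ] with x hx1 hx2
    rw [hx2]
    have h1 := hx1 (N x + 1)
    have h2 : x ∈ S (N x + 1) := fun h3 => by
      have h4 : N x + 1 ≤ N x := h3.2
      omega
    rw [Set.indicator_of_mem h2] at h1
    exact h1
  rw [Submodule.dense_iff_topologicalClosure_eq_top, Submodule.topologicalClosure_eq_top_iff]
  exact key

end Example

end Pool.Agent.Q191.Carl
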