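import Mathlib

/-!
# Hilbert modules, closed ternary subspaces and reduced linking algebras

Right Hilbert modules `E` over a C*-algebra `B`, with inner product linear in the second variable.
For a subspace `F` of `E`: `innSpan B F` is the closed span of `⟨F, F⟩`, `compSpan B F` is the
closed span of the operators `x y^* : z ↦ x⟨y, z⟩`, `x, y ∈ F`, on `E`.

The elements of the reduced linking algebra of `E` are the matrices with first row `b`, `y^*` and
second row `x`, `k` (`b ∈ innSpan B ⊤`, `x, y ∈ E`, `k ∈ compSpan B ⊤`), acting on the Hilbert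
module `B_E ⊕ E`, `B_E = innSpan B ⊤`, by `(c, z) ↦ (b c + ⟨y, z⟩, x c + k z)`.
-/

set_option autoImplicit false

namespace Pool.Agent.Q191.HM

/-- `E` is a right Hilbert module over the C*-algebra `B`: a right `B`-module with a `B`-valued
inner product, linear in the second variable, such that `‖x‖² = ‖⟨x, x⟩‖`
(completeness of `E` is assumed separately). -/
class HilbMod (B E : Type*) [NonUnitalCStarAlgebra B] [NormedAddCommGroup E]
    [NormedSpace ℂ E] where
  /-- the right action `x b` -/
  act : E → B → E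
  /-- the inner product `⟨x, y⟩` -/
  inn : E → E → B
  add_act : ∀ x y b, act (x + y) b = act x b + act y b
  smul_act : ∀ (c : ℂ) x b, act (c • x) b = c • act x b
  act_add : ∀ x a b, act x (a + b) = act x a + act x b
  act_smul : ∀ (c : ℂ) x b, act x (c • b) = c • act x b
  act_mul : ∀ x a b, act x (a * b) = act (act x a) b
  inn_add : ∀ x y z, inn x (y + z) = inn x y + inn x z
  inn_smul : ∀ (c : ℂ) x y, inn x (c • y) = c • inn x y
  inn_act : ∀ x y b, inn x (act y b) = inn x y * b
  star_inn : ∀ x y, star (inn x y) = inn y x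
  inn_self : ∀ x, ∃ b : B, inn x x = star b * b
  norm_sq : ∀ x, ‖x‖ ^ 2 = ‖inn x x‖

/-- the bounded operators on `E` -/
abbrev Op (E : Type*) [NormedAddCommGroup E] [NormedSpace ℂ E] : Type _ := E →L[ℂ] E

/-- the value of a bounded operator at a vector -/
def ap {E : Type*} [NormedAddCommGroup E] [NormedSpace ℂ E] (k : Op E) (z : E) : E := k z

variable (B : Type*) {E : Type*} [NonUnitalCStarAlgebra B] [NormedAddCommGroup E] [NormedSpace ℂ E]
  [HilbMod B E]

/-- The closed span of the inner products `⟨x, y⟩`, `x, y ∈ F`. -/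
noncomputable def innSpan (F : Submodule ℂ E) : Submodule ℂ B :=
  (Submodule.span ℂ {b : B | ∃ x ∈ F, ∃ y ∈ F, b = HilbMod.inn x y}).topologicalClosure

/-- `T` is the operator `x y^* : z ↦ x⟨y, z⟩`. -/
def IsRankOne (T : Op E) (x y : E) : Prop :=
  ∀ z, ap T z = HilbMod.act x (HilbMod.inn y z : B)

/-- The closed span of the operators `x y^*`, `x, y ∈ F`. -/
noncomputable def compSpan (F : Submodule ℂ E) : Submodule ℂ (Op E) :=
  (Submodule.span ℂ {T : Op E | ∃ x ∈ F, ∃ y ∈ F, IsRankOne B T x y}).topologicalClosure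

/-- `F` is a closed ternary subspace of `E`. -/
structure IsTernary (F : Submodule ℂ E) : Prop where
  closed : IsClosed (F : Set E)
  ternary : ∀ x ∈ F, ∀ y ∈ F, ∀ z ∈ F, HilbMod.act x (HilbMod.inn y z : B) ∈ F

/-- The matrix with first row `b`, `y^*` and second row `x`, `k`. -/
@[ext]
structure Mat (B E : Type*) [NonUnitalCStarAlgebra B] [NormedAddCommGroup E]
    [NormedSpace ℂ E] where
  b : B
  x : E
  y : E
  k : Op E

/-- The first component `b c + ⟨y, z⟩` of the value at `(c, z)`. -/
def Mat.fst (T : Mat B E) (c : B) (z : E) : B := T.b * c + HilbMod.inn T.y z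

/-- The second component `x c + k z` of the value at `(c, z)`. -/
def Mat.snd (T : Mat B E) (c : B) (z : E) : E := HilbMod.act T.x c + ap T.k z

/-- The reduced linking algebra of `F` (the linking algebra of `E` for `F = ⊤`): the matrices with
entries in `innSpan B F`, `F^*`, `F`, `compSpan B F`. -/
def link (F : Submodule ℂ E) : Set (Mat B E) :=
  {T | T.b ∈ innSpan B F ∧ T.x ∈ F ∧ T.y ∈ F ∧ T.k ∈ compSpan B F}

/-- The norm of `(c, z)` in the Hilbert module `B_E ⊕ E`: `‖(c, z)‖² = ‖c^* c + ⟨z, z⟩‖`. -/
noncomputable def colNorm (c : B) (z : E) : ℝ := √ ‖star c * c + HilbMod.inn z z‖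

/-- The norm in the linking algebra: the norm as an operator on the Hilbert module `B_E ⊕ E`. -/
noncomputable def linkNorm (T : Mat B E) : ℝ :=
  sInf {C : ℝ | 0 ≤ C ∧ ∀ c ∈ innSpan B (⊤ : Submodule ℂ E), ∀ z : E,
    colNorm B (T.fst B c z) (T.snd B c z) ≤ C * colNorm B c z}

/-- A blockwise map: four maps, one for each corner. -/
structure Block (B E : Type*) [NonUnitalCStarAlgebra B] [NormedAddCommGroup E]
    [NormedSpace ℂ E] where
  b : B → B
  x : E → E
  y : E → E
  k : Op E → Op E

/-- The value of a blockwise map at a matrix. -/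
def Block.app {B E : Type*} [NonUnitalCStarAlgebra B] [NormedAddCommGroup E] [NormedSpace ℂ E]
    (Φ : Block B E) (T : Mat B E) : Mat B E := ⟨Φ.b T.b, Φ.x T.x, Φ.y T.y, Φ.k T.k⟩

/-- `f` is linear on the subspace `S`. -/
def IsLinOn {V : Type*} [NormedAddCommGroup V] [NormedSpace ℂ V] (S : Submodule ℂ V)
    (f : V → V) : Prop :=
  (∀ u ∈ S, ∀ v ∈ S, f (u + v) = f u + f v) ∧ ∀ c : ℂ, ∀ v ∈ S, f (c • v) = c • f v

/-- The four maps are linear on the corners of the linking algebra of `E`. (For the
`(1, 2)`-corner: `y^* ↦ (Φ.y y)^*` is linear if and only if `Φ.y` is linear.) -/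
structure Block.IsLinear (Φ : Block B E) : Prop where
  b : IsLinOn (innSpan B (⊤ : Submodule ℂ E)) Φ.b
  x : IsLinOn (⊤ : Submodule ℂ E) Φ.x
  y : IsLinOn (⊤ : Submodule ℂ E) Φ.y
  k : IsLinOn (compSpan B (⊤ : Submodule ℂ E)) Φ.k

/-- `Φ` is a blockwise conditional expectation of the linking algebra of `E` onto the linking
algebra of `F`: linear, with values in the linking algebra of `F`, the identity on it, and
contractive. -/
structure IsBlockwiseCondExp (F : Submodule ℂ E) (Φ : Block B E) : Prop where
  linear : Φ.IsLinear B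
  maps : ∀ T ∈ link B (⊤ : Submodule ℂ E), Φ.app T ∈ link B F
  idem : ∀ T ∈ link B F, Φ.app T = T
  contractive : ∀ T ∈ link B (⊤ : Submodule ℂ E), linkNorm B (Φ.app T) ≤ linkNorm B T

end Pool.Agent.Q191.HM
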