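import Pool.Agent.Q191.HM

/-! Basic facts on Hilbert modules and linking algebras -/

set_option autoImplicit false

namespace Pool.Agent.Q191.HM

open HilbMod

variable {B E : Type*} [NonUnitalCStarAlgebra B] [NormedAddCommGroup E] [NormedSpace ℂ E]
  [HilbMod B E]

lemma norm_add_pos_le (c d : B) : ‖star c * c‖ ≤ ‖star c * c + star d * d‖ := by
  let _ := CStarAlgebra.spectralOrder B
  have _ := CStarAlgebra.spectralOrderedRing B
  exact CStarAlgebra.norm_le_norm_of_nonneg_of_le (star_mul_self_nonneg c)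
    (le_add_of_nonneg_right (star_mul_self_nonneg d))

lemma act_inn (x y : E) (b : B) : (inn (act x b) y : B) = star b * inn x y := by
  rw [← star_inn, inn_act, star_mul, star_inn]

lemma inn_add_left (x y z : E) : (inn (x + y) z : B) = inn x z + inn y z := by
  rw [← star_inn, inn_add, star_add, star_inn, star_inn]

lemma inn_smul_left (c : ℂ) (x y : E) : (inn (c • x) y : B) = star c • inn x y := by
  rw [← star_inn, inn_smul, star_smul, star_inn]

lemma inn_zero (x : E) : (inn x (0 : E) : B) = 0 := by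
  have := inn_smul (B := B) (0 : ℂ) x (0 : E)
  simpa using this

lemma zero_inn (x : E) : (inn (0 : E) x : B) = 0 := by
  rw [← star_inn, inn_zero, star_zero]

lemma act_zero (x : E) : act x (0 : B) = 0 := by
  have := act_smul (B := B) (0 : ℂ) x 0
  simpa using this

lemma zero_act (b : B) : act (0 : E) b = 0 := by
  have := smul_act (B := B) (0 : ℂ) (0 : E) b
  simpa using this

lemma norm_act_le (x : E) (b : B) : ‖act x b‖ ≤ ‖x‖ * ‖b‖ := by
  have h : ‖act x b‖ ^ 2 ≤ (‖x‖ * ‖b‖) ^ 2 := by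
    rw [norm_sq (B := B), inn_act, act_inn, mul_pow, norm_sq (B := B)]
    calc ‖star b * inn x x * b‖ ≤ ‖star b * inn x x‖ * ‖b‖ := norm_mul_le _ _
      _ ≤ ‖star b‖ * ‖(inn x x : B)‖ * ‖b‖ := by gcongr; exact norm_mul_le _ _
      _ = ‖(inn x x : B)‖ * ‖b‖ ^ 2 := by rw [norm_star]; ring
  exact le_of_sq_le_sq h (by positivity)

lemma colNorm_nonneg (c : B) (z : E) : 0 ≤ colNorm B c z := Real.sqrt_nonneg _

lemma norm_fst_le (c : B) (z : E) : ‖c‖ ≤ colNorm B c z := by
  unfold colNorm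
  apply Real.le_sqrt_of_sq_le
  obtain ⟨d, hd⟩ := inn_self (B := B) z
  simp only [hd]
  calc ‖c‖ ^ 2 = ‖star c * c‖ := by rw [CStarRing.norm_star_mul_self]; ring
    _ ≤ _ := norm_add_pos_le _ _

lemma colNorm_zero_left (z : E) : colNorm B 0 z = ‖z‖ := by
  unfold colNorm
  simp only [mul_zero, zero_add]
  rw [← norm_sq, Real.sqrt_sq (norm_nonneg _)]

lemma colNorm_zero_right (c : B) : colNorm B c (0 : E) = ‖c‖ := by
  unfold colNorm
  simp only [inn_zero, add_zero, CStarRing.norm_star_mul_self, Real.sqrt_mul_self (norm_nonneg _)]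

lemma norm_snd_le (c : B) (z : E) : ‖z‖ ≤ colNorm B c z := by
  unfold colNorm
  apply Real.le_sqrt_of_sq_le
  obtain ⟨d, hd⟩ := inn_self (B := B) z
  rw [norm_sq (B := B), hd, add_comm]
  exact norm_add_pos_le _ _

/-- the matrix of a corner `x` -/
def cornerX (x : E) : Mat B E := ⟨0, x, 0, 0⟩

/-- the matrix of a corner `k` -/
def cornerK (k : Op E) : Mat B E := ⟨0, 0, 0, k⟩

/-- the matrix of a corner `b` -/
def cornerB (b : B) : Mat B E := ⟨b, 0, 0, 0⟩

lemma cornerX_mem {F : Submodule ℂ E} {x : E} (hx : x ∈ F) : (cornerX x : Mat B E) ∈ link B F :=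
  ⟨Submodule.zero_mem _, hx, Submodule.zero_mem _, Submodule.zero_mem _⟩

lemma cornerK_mem {F : Submodule ℂ E} {k : Op E} (hk : k ∈ compSpan B F) :
    (cornerK k : Mat B E) ∈ link B F :=
  ⟨Submodule.zero_mem _, Submodule.zero_mem _, Submodule.zero_mem _, hk⟩

lemma cornerB_mem {F : Submodule ℂ E} {b : B} (hb : b ∈ innSpan B F) :
    (cornerB b : Mat B E) ∈ link B F :=
  ⟨hb, Submodule.zero_mem _, Submodule.zero_mem _, Submodule.zero_mem _⟩

lemma colNorm_cornerX (x : E) (c : B) (z : E) :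
    colNorm B ((cornerX x : Mat B E).fst B c z) ((cornerX x : Mat B E).snd B c z)
      = ‖act x c‖ := by
  have h1 : (cornerX x : Mat B E).fst B c z = 0 := by
    simp [Mat.fst, cornerX, zero_inn]
  have h2 : (cornerX x : Mat B E).snd B c z = act x c := by
    simp [Mat.snd, cornerX, ap]
  rw [h1, h2, colNorm_zero_left]

lemma linkNorm_cornerX_le (x : E) : linkNorm B (cornerX x : Mat B E) ≤ ‖x‖ := by
  refine csInf_le ⟨0, fun _ hC => hC.1⟩ ⟨norm_nonneg _, fun c _ z => ?_⟩
  rw [colNorm_cornerX]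
  exact (norm_act_le _ _).trans (mul_le_mul_of_nonneg_left (norm_fst_le c z) (norm_nonneg _))

/-- lower bound for the norm of an element of the `(2, 1)`-corner -/
lemma le_linkNorm_cornerX (x : E) {c : B} (hcm : c ∈ innSpan B (⊤ : Submodule ℂ E))
    (hc : ‖c‖ ≤ 1) : ‖act x c‖ ≤ linkNorm B (cornerX x : Mat B E) := by
  refine le_csInf ⟨‖x‖, norm_nonneg _, fun c _ z => ?_⟩ ?_
  · rw [colNorm_cornerX]
    exact (norm_act_le _ _).trans (mul_le_mul_of_nonneg_left (norm_fst_le c z) (norm_nonneg _))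
  rintro C ⟨hC0, hC⟩
  have := hC c hcm 0
  rw [colNorm_cornerX, colNorm_zero_right] at this
  refine this.trans ?_
  calc C * ‖c‖ ≤ C * 1 := mul_le_mul_of_nonneg_left hc hC0
    _ = C := mul_one _

lemma linkNorm_cornerB_le (b : B) : linkNorm B (cornerB b : Mat B E) ≤ ‖b‖ := by
  refine csInf_le ⟨0, fun _ hC => hC.1⟩ ⟨norm_nonneg _, fun c _ z => ?_⟩
  have h1 : (cornerB b : Mat B E).fst B c z = b * c := by
    simp [Mat.fst, cornerB, zero_inn]
  have h2 : (cornerB b : Mat B E).snd B c z = 0 := by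
    simp [Mat.snd, cornerB, ap, zero_act]
  rw [h1, h2, colNorm_zero_right]
  exact (norm_mul_le _ _).trans (mul_le_mul_of_nonneg_left (norm_fst_le c z) (norm_nonneg _))

/-- lower bound for the norm of an element of the `(1, 1)`-corner -/
lemma le_linkNorm_cornerB (b : B) {c : B} (hcm : c ∈ innSpan B (⊤ : Submodule ℂ E))
    (hc : ‖c‖ ≤ 1) : ‖b * c‖ ≤ linkNorm B (cornerB b : Mat B E) := by
  have h : ∀ (c : B) (z : E), colNorm B ((cornerB b : Mat B E).fst B c z)
      ((cornerB b : Mat B E).snd B c z) = ‖b * c‖ := by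
    intro c z
    have h1 : (cornerB b : Mat B E).fst B c z = b * c := by
      simp [Mat.fst, cornerB, zero_inn]
    have h2 : (cornerB b : Mat B E).snd B c z = 0 := by
      simp [Mat.snd, cornerB, ap, zero_act]
    rw [h1, h2, colNorm_zero_right]
  refine le_csInf ⟨‖b‖, norm_nonneg _, fun c _ z => ?_⟩ ?_
  · rw [h]
    exact (norm_mul_le _ _).trans (mul_le_mul_of_nonneg_left (norm_fst_le c z) (norm_nonneg _))
  rintro C ⟨hC0, hC⟩
  have := hC c hcm 0
  rw [h, colNorm_zero_right] at this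
  refine this.trans ?_
  calc C * ‖c‖ ≤ C * 1 := mul_le_mul_of_nonneg_left hc hC0
    _ = C := mul_one _

/-- `‖(k : corner)‖ ≤ ‖k‖` when `k` is bounded for ... -/
lemma linkNorm_cornerK_le (k : Op E) : linkNorm B (cornerK k : Mat B E) ≤ ‖k‖ := by
  refine csInf_le ⟨0, fun _ hC => hC.1⟩ ⟨norm_nonneg _, fun c _ z => ?_⟩
  have h1 : (cornerK k : Mat B E).fst B c z = 0 := by
    simp [Mat.fst, cornerK, zero_inn]
  have h2 : (cornerK k : Mat B E).snd B c z = k z := by
    simp [Mat.snd, cornerK, ap, zero_act]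
  rw [h1, h2, colNorm_zero_left]
  exact (k.le_opNorm z).trans (mul_le_mul_of_nonneg_left (norm_snd_le c z) (norm_nonneg _))

lemma le_linkNorm_cornerK (k : Op E) {z : E} (hz : ‖z‖ ≤ 1) :
    ‖k z‖ ≤ linkNorm B (cornerK k : Mat B E) := by
  have h : ∀ (c : B) (z : E), colNorm B ((cornerK k : Mat B E).fst B c z)
      ((cornerK k : Mat B E).snd B c z) = ‖k z‖ := by
    intro c z
    have h1 : (cornerK k : Mat B E).fst B c z = 0 := by
      simp [Mat.fst, cornerK, zero_inn]
    have h2 : (cornerK k : Mat B E).snd B c z = k z := by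
      simp [Mat.snd, cornerK, ap, zero_act]
    rw [h1, h2, colNorm_zero_left]
  refine le_csInf ⟨‖k‖, norm_nonneg _, fun c _ z => ?_⟩ ?_
  · rw [h]
    exact (k.le_opNorm z).trans (mul_le_mul_of_nonneg_left (norm_snd_le c z) (norm_nonneg _))
  rintro C ⟨hC0, hC⟩
  have := hC 0 (Submodule.zero_mem _) z
  rw [h, colNorm_zero_left] at this
  refine this.trans ?_
  calc C * ‖z‖ ≤ C * 1 := mul_le_mul_of_nonneg_left hz hC0
    _ = C := mul_one _

end Pool.Agent.Q191.HM
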