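import Pool.Agent.Q191.HMBasic

/-! Cauchy-Schwarz, rank-one operators and the density of `F⟨F, F⟩` in `F` -/

set_option autoImplicit false

namespace Pool.Agent.Q191.HM

open HilbMod Filter Topology

variable {B E : Type*} [NonUnitalCStarAlgebra B] [NormedAddCommGroup E] [NormedSpace ℂ E]
  [HilbMod B E]

lemma inn_sub (x y z : E) : (inn x (y - z) : B) = inn x y - inn x z := by
  rw [sub_eq_add_neg, inn_add, ← neg_one_smul ℂ z, inn_smul, neg_one_smul, ← sub_eq_add_neg]

lemma inn_sub_left (x y z : E) : (inn (x - y) z : B) = inn x z - inn y z := by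
  rw [← star_inn, inn_sub, star_sub, star_inn, star_inn]

lemma isSelfAdjoint_inn (x : E) : IsSelfAdjoint (inn x x : B) := star_inn x x

/-- **Cauchy-Schwarz** -/
lemma norm_inn_le (x y : E) : ‖(inn x y : B)‖ ≤ ‖x‖ * ‖y‖ := by
  let _ := CStarAlgebra.spectralOrder B
  have _ := CStarAlgebra.spectralOrderedRing B
  by_cases hx : x = 0
  · rw [hx, zero_inn]; simp
  have hx0 : 0 < ‖x‖ := norm_pos_iff.2 hx
  -- the norm of `z = x b - t y`, with `b = ⟨x, y⟩`, `t = ‖x‖²`
  set b : B := inn x y with hb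
  set t : ℝ := ‖x‖ ^ 2 with ht
  have htpos : 0 < t := by positivity
  obtain ⟨d, hd⟩ := inn_self (B := B) (act x b - (t : ℂ) • y)
  have h1 : (inn (act x b - (t : ℂ) • y) (act x b - (t : ℂ) • y) : B) =
      star b * inn x x * b - (t : ℂ) • (star b * b) - (t : ℂ) • (star b * b) +
        (t : ℂ) • ((t : ℂ) • inn y y) := by
    rw [inn_sub, inn_sub_left, inn_sub_left, inn_act, inn_act, inn_smul, inn_smul,
      inn_smul_left, act_inn, inn_smul_left, act_inn, ← hb]
    have : (inn y x : B) = star b := by rw [hb, star_inn]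
    rw [this]
    have hstar : star (t : ℂ) = (t : ℂ) := Complex.conj_ofReal t
    rw [hstar, smul_mul_assoc]
    abel
  have h2 : (0 : B) ≤ star b * inn x x * b - (t : ℂ) • (star b * b) - (t : ℂ) • (star b * b) +
        (t : ℂ) • ((t : ℂ) • inn y y) := by
    rw [← h1, hd]; exact star_mul_self_nonneg d
  have h3 : star b * inn x x * b ≤ (t : ℂ) • (star b * b) := by
    have := CStarAlgebra.star_left_conjugate_le_norm_smul (a := b) (b := (inn x x : B))
      (isSelfAdjoint_inn x)
    rw [← norm_sq (B := B) x] at this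
    refine this.trans (le_of_eq ?_)
    rw [Complex.coe_smul]
  have h4 : star b * b ≤ (t : ℂ) • (inn y y : B) := by
    have h5 : (t : ℂ) • (star b * b) ≤ (t : ℂ) • ((t : ℂ) • (inn y y : B)) := by
      have := add_le_add h3 h2
      have h6 : star b * inn x x * b + 0 ≤ (t : ℂ) • (star b * b) +
        (star b * inn x x * b - (t : ℂ) • (star b * b) - (t : ℂ) • (star b * b) +
        (t : ℂ) • ((t : ℂ) • inn y y)) := this
      have h7 : (t : ℂ) • (star b * b) + (star b * inn x x * b - (t : ℂ) • (star b * b) -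
        (t : ℂ) • (star b * b) + (t : ℂ) • ((t : ℂ) • inn y y)) =
          (star b * inn x x * b) + ((t : ℂ) • ((t : ℂ) • (inn y y : B)) - (t : ℂ) • (star b * b)) := by
        abel
      rw [h7] at h6
      have h8 := le_of_add_le_add_left h6
      exact sub_nonneg.1 h8
    have h9 : ((t⁻¹ : ℝ) : ℂ) • ((t : ℂ) • (star b * b)) ≤
        ((t⁻¹ : ℝ) : ℂ) • ((t : ℂ) • ((t : ℂ) • (inn y y : B))) := by
      rw [Complex.coe_smul, Complex.coe_smul (t⁻¹)]
      exact smul_le_smul_of_nonneg_left h5 (by positivity)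
    have hne : (t : ℂ) ≠ 0 := by exact_mod_cast htpos.ne'
    rw [smul_smul, smul_smul] at h9
    have hone : ((t⁻¹ : ℝ) : ℂ) * (t : ℂ) = 1 := by
      push_cast; exact inv_mul_cancel₀ hne
    rw [hone, one_smul, one_smul] at h9
    exact h9
  have h10 := CStarAlgebra.norm_le_norm_of_nonneg_of_le (star_mul_self_nonneg b) h4
  rw [CStarRing.norm_star_mul_self, norm_smul, ← norm_sq] at h10
  have h11 : ‖(t : ℂ)‖ = ‖x‖ ^ 2 := by
    rw [Complex.norm_real, Real.norm_eq_abs, abs_of_pos htpos]
  rw [h11] at h10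
  exact le_of_sq_le_sq (by rw [mul_pow]; linarith [sq ‖b‖]) (by positivity)

/-- The continuous linear map `y ↦ ⟨x, y⟩`. -/
noncomputable def innL (B : Type*) {E : Type*} [NonUnitalCStarAlgebra B] [NormedAddCommGroup E]
    [NormedSpace ℂ E] [HilbMod B E] (x : E) : E →L[ℂ] B :=
  LinearMap.mkContinuous ⟨⟨fun y => inn x y, fun y z => inn_add x y z⟩, fun c y => inn_smul c x y⟩
    ‖x‖ (fun y => norm_inn_le x y)

lemma innL_apply (x y : E) : innL B x y = inn x y := rfl

/-- The continuous linear map `b ↦ x b`. -/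
noncomputable def actB (B : Type*) {E : Type*} [NonUnitalCStarAlgebra B] [NormedAddCommGroup E]
    [NormedSpace ℂ E] [HilbMod B E] (x : E) : B →L[ℂ] E :=
  LinearMap.mkContinuous ⟨⟨fun b => act x b, fun y z => act_add x y z⟩, fun c y => act_smul c x y⟩
    ‖x‖ (fun y => norm_act_le x y)

lemma actB_apply (x : E) (b : B) : actB B x b = act x b := rfl

/-- The continuous linear map `x ↦ x b`. -/
noncomputable def actE (E : Type*) {B : Type*} [NonUnitalCStarAlgebra B] [NormedAddCommGroup E]
    [NormedSpace ℂ E] [HilbMod B E] (b : B) : E →L[ℂ] E :=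
  LinearMap.mkContinuous ⟨⟨fun x => act x b, fun y z => add_act y z b⟩, fun c y => smul_act c y b⟩
    ‖b‖ (fun y => by rw [mul_comm]; exact norm_act_le y b)

lemma actE_apply (x : E) (b : B) : actE E b x = act x b := rfl

/-- The rank-one operator `x y^*`. -/
noncomputable def rk (B : Type*) {E : Type*} [NonUnitalCStarAlgebra B] [NormedAddCommGroup E]
    [NormedSpace ℂ E] [HilbMod B E] (x y : E) : Op E := (actB B x).comp (innL B y)

lemma rk_apply (x y z : E) : rk B x y z = act x (inn y z : B) := rfl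

lemma isRankOne_rk (x y : E) : IsRankOne B (rk B x y) x y := fun _ => rfl

lemma eq_rk {T : Op E} {x y : E} (h : IsRankOne B T x y) : T = rk B x y := by
  ext z
  exact h z

lemma rk_mem {F : Submodule ℂ E} {x y : E} (hx : x ∈ F) (hy : y ∈ F) :
    rk B x y ∈ compSpan B F :=
  Submodule.le_topologicalClosure _ (Submodule.subset_span ⟨x, hx, y, hy, isRankOne_rk x y⟩)

lemma inn_mem {F : Submodule ℂ E} {x y : E} (hx : x ∈ F) (hy : y ∈ F) :
    (inn x y : B) ∈ innSpan B F :=
  Submodule.le_topologicalClosure _ (Submodule.subset_span ⟨x, hx, y, hy, rfl⟩)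

section Bern

lemma bern_aux {u : ℝ} (h0 : 0 ≤ u) (h1 : u ≤ 1) (m : ℕ) (hm : 0 < m) :
    u * (1 - u) ^ m ≤ 1 / m := by
  have h2 : 1 + m * u ≤ (1 + u) ^ m := one_add_mul_le_pow (by linarith) m
  have h3 : (1 - u) ^ m * (1 + m * u) ≤ 1 := by
    calc (1 - u) ^ m * (1 + m * u) ≤ (1 - u) ^ m * (1 + u) ^ m :=
          mul_le_mul_of_nonneg_left h2 (pow_nonneg (by linarith) _)
      _ = (1 - u ^ 2) ^ m := by rw [← mul_pow]; ring
      _ ≤ 1 := pow_le_one₀ (by nlinarith) (by nlinarith)
  have h4 : 0 ≤ (1 - u) ^ m := pow_nonneg (by linarith) _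
  have hm' : (0 : ℝ) < m := by exact_mod_cast hm
  rw [le_div_iff₀ hm']
  nlinarith

end Bern

/-- `x (1 - a / M)^n` -/
noncomputable def appr (B : Type*) {E : Type*} [NonUnitalCStarAlgebra B] [NormedAddCommGroup E]
    [NormedSpace ℂ E] [HilbMod B E] (x : E) (s : ℝ) : ℕ → E
  | 0 => x
  | n + 1 => appr B x s n - (s : ℂ) • act (appr B x s n) (inn x x : B)

lemma cfc_step {a : B} (ha : IsSelfAdjoint a) (s : ℝ) (f : ℝ → ℝ) (hf : Continuous f)
    (hf0 : f 0 = 0) : cfcₙ (fun t : ℝ => f t * (1 - s * t) ^ 2) a =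
      (cfcₙ f a - s • (a * cfcₙ f a)) - s • ((cfcₙ f a * a) - s • (a * cfcₙ f a * a)) := by
  have hid : cfcₙ (fun t : ℝ => t) a = a := cfcₙ_id' ℝ a
  have c1 : Continuous fun t : ℝ => t * f t := continuous_id.mul hf
  have c2 : Continuous fun t : ℝ => f t * t := hf.mul continuous_id
  have c3 : Continuous fun t : ℝ => t * f t * t := c1.mul continuous_id
  have e1 : cfcₙ (fun t : ℝ => t * f t) a = a * cfcₙ f a := by
    rw [cfcₙ_mul (fun t : ℝ => t) f a continuous_id.continuousOn rfl hf.continuousOn hf0, hid]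
  have e2 : cfcₙ (fun t : ℝ => f t * t) a = cfcₙ f a * a := by
    rw [cfcₙ_mul f (fun t : ℝ => t) a hf.continuousOn hf0 continuous_id.continuousOn rfl, hid]
  have e3 : cfcₙ (fun t : ℝ => t * f t * t) a = a * cfcₙ f a * a := by
    rw [cfcₙ_mul (fun t : ℝ => t * f t) (fun t : ℝ => t) a c1.continuousOn (by simp)
      continuous_id.continuousOn rfl, hid, e1]
  have h2 : (fun t : ℝ => f t * (1 - s * t) ^ 2) =
      fun t : ℝ => (f t - s * (t * f t)) - s * ((f t * t) - s * (t * f t * t)) := by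
    funext t
    ring
  rw [h2, cfcₙ_sub (fun t : ℝ => f t - s * (t * f t))
      (fun t : ℝ => s * ((f t * t) - s * (t * f t * t))) a
      (hf.sub (continuous_const.mul c1)).continuousOn (by simp [hf0])
      (continuous_const.mul (c2.sub (continuous_const.mul c3))).continuousOn (by simp),
    cfcₙ_sub f (fun t : ℝ => s * (t * f t)) a hf.continuousOn hf0
      (continuous_const.mul c1).continuousOn (by simp),
    cfcₙ_const_mul s (fun t : ℝ => t * f t) a c1.continuousOn (by simp), e1,
    cfcₙ_const_mul s (fun t : ℝ => (f t * t) - s * (t * f t * t)) a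
      (c2.sub (continuous_const.mul c3)).continuousOn (by simp),
    cfcₙ_sub (fun t : ℝ => f t * t) (fun t : ℝ => s * (t * f t * t)) a c2.continuousOn (by simp)
      (continuous_const.mul c3).continuousOn (by simp), e2,
    cfcₙ_const_mul s (fun t : ℝ => t * f t * t) a c3.continuousOn (by simp), e3]

lemma inn_appr (x : E) (s : ℝ) (n : ℕ) : (inn (appr B x s n) (appr B x s n) : B) =
    cfcₙ (fun t : ℝ => t * (1 - s * t) ^ (2 * n)) (inn x x : B) := by
  set a : B := inn x x with ha
  have hsa : IsSelfAdjoint a := isSelfAdjoint_inn x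
  induction n with
  | zero =>
    simp only [mul_zero, pow_zero, mul_one]
    rw [cfcₙ_id' ℝ a]
    rfl
  | succ n ih =>
    have h1 : (inn (appr B x s (n + 1)) (appr B x s (n + 1)) : B) =
        (inn (appr B x s n) (appr B x s n) - (s : ℂ) • (a * inn (appr B x s n) (appr B x s n))) -
        (s : ℂ) • ((inn (appr B x s n) (appr B x s n) * a) -
          (s : ℂ) • (a * inn (appr B x s n) (appr B x s n) * a)) := by
      rw [appr, inn_sub, inn_sub_left, inn_smul, inn_sub_left, inn_act, inn_smul_left, act_inn,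
        inn_act, inn_smul_left, act_inn, ← ha, hsa.star_eq]
      have hstar : star (s : ℂ) = (s : ℂ) := Complex.conj_ofReal s
      rw [hstar, smul_mul_assoc]
    have h2 : (fun t : ℝ => t * (1 - s * t) ^ (2 * (n + 1))) =
        fun t : ℝ => (t * (1 - s * t) ^ (2 * n)) * (1 - s * t) ^ 2 := by
      funext t
      ring
    rw [h1, ih, h2, cfc_step hsa s (fun t : ℝ => t * (1 - s * t) ^ (2 * n)) (by fun_prop)
      (by simp)]
    simp only [Complex.coe_smul]

lemma norm_appr_sq_le (x : E) (n : ℕ) (hn : 0 < n) :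
    ‖appr B x (‖(inn x x : B)‖ + 1)⁻¹ n‖ ^ 2 ≤ (‖(inn x x : B)‖ + 1) / (2 * n) := by
  let _ := CStarAlgebra.spectralOrder B
  have _ := CStarAlgebra.spectralOrderedRing B
  set a : B := inn x x with ha
  have hsa : IsSelfAdjoint a := isSelfAdjoint_inn x
  have hpos : 0 ≤ a := by
    obtain ⟨d, hd⟩ := inn_self (B := B) x
    rw [ha, hd]; exact star_mul_self_nonneg d
  set M : ℝ := ‖a‖ + 1 with hM
  have hMpos : 0 < M := by positivity
  rw [norm_sq (B := B), inn_appr, ← ha]
  refine norm_cfcₙ_le fun t ht => ?_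
  have ht0 : 0 ≤ t := quasispectrum_nonneg_of_nonneg a hpos t ht
  have ht1 : t ≤ M := by
    have := NonUnitalIsometricContinuousFunctionalCalculus.norm_quasispectrum_le a ht hsa
    rw [Real.norm_eq_abs] at this
    linarith [le_abs_self t]
  have hu0 : 0 ≤ M⁻¹ * t := by positivity
  have hu1 : M⁻¹ * t ≤ 1 := by
    rw [inv_mul_le_iff₀ hMpos]; linarith
  have := bern_aux hu0 hu1 (2 * n) (by omega)
  rw [Real.norm_eq_abs, abs_of_nonneg (mul_nonneg ht0 (pow_nonneg (by linarith) _))]
  calc t * (1 - M⁻¹ * t) ^ (2 * n) = M * (M⁻¹ * t * (1 - M⁻¹ * t) ^ (2 * n)) := by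
        field_simp
    _ ≤ M * (1 / (2 * n : ℕ)) := mul_le_mul_of_nonneg_left this hMpos.le
    _ = M / (2 * n) := by push_cast; ring

/-- `F⟨F, F⟩` -/
def triples (B : Type*) {E : Type*} [NonUnitalCStarAlgebra B] [NormedAddCommGroup E]
    [NormedSpace ℂ E] [HilbMod B E] (F : Submodule ℂ E) : Set E :=
  {w | ∃ y ∈ F, ∃ g ∈ F, ∃ h ∈ F, w = act y (inn g h : B)}

/-- **Density**: a closed ternary subspace `F` is the closed span of `F⟨F, F⟩`. -/
lemma mem_closure_triples {F : Submodule ℂ E} (hF : IsTernary B F) {x : E} (hx : x ∈ F) :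
    x ∈ (Submodule.span ℂ (triples B F)).topologicalClosure := by
  set s : ℝ := (‖(inn x x : B)‖ + 1)⁻¹ with hs
  have hmem : ∀ n, appr B x s n ∈ F ∧ x - appr B x s n ∈ Submodule.span ℂ (triples B F) := by
    intro n
    induction n with
    | zero => exact ⟨hx, by simp [appr]⟩
    | succ n ih =>
      refine ⟨?_, ?_⟩
      · exact F.sub_mem ih.1 (F.smul_mem _ (hF.ternary _ ih.1 _ hx _ hx))
      · have : x - appr B x s (n + 1) = (x - appr B x s n) +
            (s : ℂ) • act (appr B x s n) (inn x x : B) := by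
          rw [appr]; abel
        rw [this]
        exact Submodule.add_mem _ ih.2 (Submodule.smul_mem _ _
          (Submodule.subset_span ⟨_, ih.1, _, hx, _, hx, rfl⟩))
  have hlim : Tendsto (fun n => appr B x s n) atTop (𝓝 0) := by
    rw [tendsto_zero_iff_norm_tendsto_zero]
    have h1 : Tendsto (fun n : ℕ => √ ((‖(inn x x : B)‖ + 1) / (2 * n))) atTop (𝓝 0) := by
      have h2 : Tendsto (fun n : ℕ => ((‖(inn x x : B)‖ + 1) / (2 * n) : ℝ)) atTop (𝓝 0) := by
        have := tendsto_const_div_atTop_nhds_zero_nat ((‖(inn x x : B)‖ + 1) / 2)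
        refine this.congr fun n => ?_
        rw [div_div]
      have := (Real.continuous_sqrt.tendsto 0).comp h2
      rw [Real.sqrt_zero] at this
      exact this
    refine squeeze_zero' (Filter.Eventually.of_forall fun n => norm_nonneg _) ?_ h1
    filter_upwards [Filter.eventually_gt_atTop 0] with n hn
    exact Real.le_sqrt_of_sq_le (norm_appr_sq_le x n hn)
  have hlim2 : Tendsto (fun n => x - appr B x s n) atTop (𝓝 x) := by
    have := (tendsto_const_nhds (x := x)).sub hlim
    rwa [sub_zero] at this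
  rw [← SetLike.mem_coe, Submodule.topologicalClosure_coe]
  exact mem_closure_of_tendsto hlim2 (Filter.Eventually.of_forall fun n => (hmem n).2)

end Pool.Agent.Q191.HM
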